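import Mathlib

/-!
# Rootless primes: Mertens' estimate for arithmetic functions with a linear summatory function

`c ≥ 0` with `∑_{m ≤ N} c(m) ~ κ N`, `κ > 0`, and `c · log = g * c` with `0 ≤ g ≤ A Λ`. Then
`∑_{p ≤ N} g(p) / p = (1 + o(1)) log N` (sum over the primes).
-/

set_option autoImplicit false

open ArithmeticFunction Finset Filter Topology

namespace Pool.Agent.Lib.MP5b6025.RP

namespace MertensM

theorem lin_bound {c : ℕ → ℝ} {κ : ℝ}
    (h : Tendsto (fun N : ℕ => (∑ m ∈ Ioc 0 N, c m) / (N : ℝ)) atTop (𝓝 κ)) :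
    ∃ C : ℝ, 0 ≤ C ∧ ∀ N : ℕ, ∑ m ∈ Ioc 0 N, c m ≤ C * N := by
  obtain ⟨B, hB⟩ := h.bddAbove_range
  refine ⟨max B 0, le_max_right _ _, fun N => ?_⟩
  rcases Nat.eq_zero_or_pos N with rfl | hN
  · simp
  · have h1 : (∑ m ∈ Ioc 0 N, c m) / (N : ℝ) ≤ B := hB ⟨N, rfl⟩
    have hN' : (0 : ℝ) < N := by exact_mod_cast hN
    rw [div_le_iff₀ hN'] at h1
    exact h1.trans (mul_le_mul_of_nonneg_right (le_max_left _ _) hN'.le)

theorem err {c : ℕ → ℝ} {κ : ℝ}
    (h : Tendsto (fun N : ℕ => (∑ m ∈ Ioc 0 N, c m) / (N : ℝ)) atTop (𝓝 κ)) {δ : ℝ}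
    (hδ : 0 < δ) :
    ∃ C : ℝ, 0 ≤ C ∧ ∀ N : ℕ, |∑ m ∈ Ioc 0 N, c m - κ * N| ≤ δ * N + C := by
  rw [Metric.tendsto_atTop] at h
  obtain ⟨N0, hN0⟩ := h δ hδ
  refine ⟨∑ n ∈ range N0, |∑ m ∈ Ioc 0 n, c m - κ * n|, sum_nonneg (fun _ _ => abs_nonneg _),
    fun N => ?_⟩
  have hpos : 0 ≤ ∑ n ∈ range N0, |∑ m ∈ Ioc 0 n, c m - κ * n| :=
    sum_nonneg (fun _ _ => abs_nonneg _)
  by_cases hN : N < N0
  · have h1 : |∑ m ∈ Ioc 0 N, c m - κ * N| ≤ ∑ n ∈ range N0, |∑ m ∈ Ioc 0 n, c m - κ * n| :=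
      single_le_sum (f := fun n : ℕ => |∑ m ∈ Ioc 0 n, c m - κ * n|)
        (fun _ _ => abs_nonneg _) (mem_range.2 hN)
    have : 0 ≤ δ * N := by positivity
    linarith
  · rcases Nat.eq_zero_or_pos N with rfl | hN1
    · simp
      exact hpos
    · have h1 := hN0 N (not_lt.1 hN)
      rw [Real.dist_eq] at h1
      have hN' : (0 : ℝ) < N := by exact_mod_cast hN1
      have h2 : ∑ m ∈ Ioc 0 N, c m - κ * N = ((∑ m ∈ Ioc 0 N, c m) / (N : ℝ) - κ) * N := by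
        field_simp
      rw [h2, abs_mul, abs_of_pos hN']
      have := mul_le_mul_of_nonneg_right h1.le hN'.le
      linarith

theorem floor_bd (N d : ℕ) : |((N / d : ℕ) : ℝ) - (N : ℝ) / d| ≤ 1 := by
  have h1 : ((N / d : ℕ) : ℝ) ≤ (N : ℝ) / d := Nat.cast_div_le
  have h2 : (N : ℝ) / d - 1 ≤ ((N / d : ℕ) : ℝ) := by
    have := Nat.lt_floor_add_one ((N : ℝ) / d)
    rw [Nat.floor_div_eq_div] at this
    linarith
  rw [abs_le]
  constructor <;> linarith

theorem psi_bd (N : ℕ) : ∑ d ∈ Ioc 0 N, Λ d ≤ (Real.log 4 + 4) * N := by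
  have h := Chebyshev.psi_le_const_mul_self (x := (N : ℝ)) (by positivity)
  unfold Chebyshev.psi at h
  simpa using h

theorem mertens_upper : ∃ C : ℝ, 0 ≤ C ∧ ∀ N : ℕ, 1 ≤ N →
    ∑ d ∈ Ioc 0 N, Λ d / (d : ℝ) ≤ Real.log N + C := by
  have h4 : (0 : ℝ) ≤ Real.log 4 := Real.log_nonneg (by norm_num)
  refine ⟨Real.log 4 + 4, by positivity, fun N hN => ?_⟩
  have hN' : (0 : ℝ) < N := by exact_mod_cast hN
  have h1 : ∑ m ∈ Ioc 0 N, Real.log m = ∑ d ∈ Ioc 0 N, Λ d * ((N / d : ℕ) : ℝ) := by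
    rw [← sum_Ioc_mul_zeta_eq_sum, vonMangoldt_mul_zeta]
    rfl
  have h2 : ∑ m ∈ Ioc 0 N, Real.log m ≤ N * Real.log N := by
    calc ∑ m ∈ Ioc 0 N, Real.log m ≤ ∑ m ∈ Ioc 0 N, Real.log N := by
          apply sum_le_sum
          intro m hm
          rw [mem_Ioc] at hm
          exact Real.log_le_log (by exact_mod_cast hm.1) (by exact_mod_cast hm.2)
      _ = N * Real.log N := by simp
  have h3 : ∑ d ∈ Ioc 0 N, Λ d * ((N : ℝ) / d - 1) ≤ ∑ d ∈ Ioc 0 N, Λ d * ((N / d : ℕ) : ℝ) := by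
    apply sum_le_sum
    intro d hd
    rw [mem_Ioc] at hd
    apply mul_le_mul_of_nonneg_left _ vonMangoldt_nonneg
    have := floor_bd N d
    rw [abs_le] at this
    linarith
  have h5 : ∑ d ∈ Ioc 0 N, Λ d * ((N : ℝ) / d - 1) =
      N * ∑ d ∈ Ioc 0 N, Λ d / (d : ℝ) - ∑ d ∈ Ioc 0 N, Λ d := by
    rw [mul_sum, ← sum_sub_distrib]
    apply sum_congr rfl
    intro d hd
    ring
  have h6 := psi_bd N
  have h7 : N * ∑ d ∈ Ioc 0 N, Λ d / (d : ℝ) ≤ N * (Real.log N + (Real.log 4 + 4)) := by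
    linarith
  exact le_of_mul_le_mul_left h7 hN'

theorem weight_bd {c : ℕ → ℝ} {C : ℝ} (hC : 0 ≤ C)
    (h : ∀ N : ℕ, ∑ m ∈ Ioc 0 N, c m ≤ C * N) (N : ℕ) :
    ∑ m ∈ Ioc 0 N, c m * (Real.log N - Real.log m) ≤ C * N := by
  induction N with
  | zero => simp
  | succ N ih =>
    have h1 : ∑ m ∈ Ioc 0 (N + 1), c m * (Real.log (N + 1 : ℕ) - Real.log m) =
        ∑ m ∈ Ioc 0 N, c m * (Real.log N - Real.log m) +
        (∑ m ∈ Ioc 0 N, c m) * (Real.log (N + 1 : ℕ) - Real.log N) := by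
      rw [sum_Ioc_succ_top (Nat.zero_le N), sum_mul, ← sum_add_distrib]
      rw [sub_self, mul_zero, add_zero]
      apply sum_congr rfl
      intro m hm
      ring
    rw [h1]
    have h2 : (∑ m ∈ Ioc 0 N, c m) * (Real.log (N + 1 : ℕ) - Real.log N) ≤ C := by
      rcases Nat.eq_zero_or_pos N with rfl | hN
      · simpa using hC
      · have hN' : (0 : ℝ) < N := by exact_mod_cast hN
        have h3 : Real.log (N + 1 : ℕ) - Real.log N ≤ 1 / N := by
          rw [← Real.log_div (by positivity) hN'.ne']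
          have h4 : ((N + 1 : ℕ) : ℝ) / N = 1 + 1 / N := by
            push_cast
            field_simp
          rw [h4]
          have := Real.log_le_sub_one_of_pos (x := 1 + 1 / (N : ℝ)) (by positivity)
          linarith
        have h5 : 0 ≤ Real.log (N + 1 : ℕ) - Real.log N := by
          apply sub_nonneg.2
          apply Real.log_le_log hN'
          push_cast
          linarith
        calc (∑ m ∈ Ioc 0 N, c m) * (Real.log (N + 1 : ℕ) - Real.log N)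
            ≤ (C * N) * (Real.log (N + 1 : ℕ) - Real.log N) :=
              mul_le_mul_of_nonneg_right (h N) h5
          _ ≤ (C * N) * (1 / N) := mul_le_mul_of_nonneg_left h3 (by positivity)
          _ = C := by field_simp
    have h6 : C * ((N + 1 : ℕ) : ℝ) = C * N + C := by push_cast; ring
    rw [h6]
    linarith

theorem nonprime_bd : ∃ C : ℝ, 0 ≤ C ∧ ∀ N : ℕ,
    ∑ d ∈ (Ioc 0 N).filter (fun d => ¬ d.Prime), Λ d / (d : ℝ) ≤ C := by
  have h := ArithmeticFunction.vonMangoldt.summable_residueClass_non_primes_div (q := 1) (a := 1)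
  have h0 : ∀ n : ℕ, (if n.Prime then 0 else ArithmeticFunction.vonMangoldt.residueClass
      (1 : ZMod 1) n) / (n : ℝ) = if n.Prime then 0 else Λ n / (n : ℝ) := by
    intro n
    split_ifs with hn
    · simp
    · congr 1
      rw [ArithmeticFunction.vonMangoldt.residueClass]
      rw [Set.indicator_of_mem]
      exact Subsingleton.elim (n : ZMod 1) 1
  simp_rw [h0] at h
  refine ⟨∑' n : ℕ, if n.Prime then 0 else Λ n / (n : ℝ), tsum_nonneg ?_, fun N => ?_⟩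
  · intro n
    split_ifs
    · rfl
    · exact div_nonneg vonMangoldt_nonneg (Nat.cast_nonneg _)
  · calc ∑ d ∈ (Ioc 0 N).filter (fun d => ¬ d.Prime), Λ d / (d : ℝ)
        = ∑ d ∈ (Ioc 0 N), if d.Prime then 0 else Λ d / (d : ℝ) := by
          rw [sum_filter]
          apply sum_congr rfl
          intro d hd
          by_cases h : d.Prime <;> simp [h]
      _ ≤ _ := by
          apply h.sum_le_tsum
          intro n hn
          split_ifs
          · rfl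
          · exact div_nonneg vonMangoldt_nonneg (Nat.cast_nonneg _)

theorem mertens {c g : ArithmeticFunction ℝ} {κ A : ℝ} (hκ : 0 < κ) (hA : 0 ≤ A)
    (hc : ∀ n, 0 ≤ c n) (hg : ∀ n, 0 ≤ g n) (hgA : ∀ n, g n ≤ A * Λ n)
    (hlim : Tendsto (fun N : ℕ => (∑ m ∈ Ioc 0 N, c m) / (N : ℝ)) atTop (𝓝 κ))
    (hid : ∀ n : ℕ, c n * Real.log n = (g * c) n) {ε : ℝ} (hε : 0 < ε) :
    ∃ C : ℝ, 0 ≤ C ∧ ∀ N : ℕ, 1 ≤ N →
      |∑ p ∈ (Ioc 0 N).filter Nat.Prime, g p / (p : ℝ) - Real.log N| ≤ ε * Real.log N + C := by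
  obtain ⟨C1, hC1, hlin⟩ := lin_bound hlim
  set δ : ℝ := ε * κ / (1 + A) with hδdef
  have hδ : 0 < δ := by positivity
  obtain ⟨C2, hC2, herr⟩ := err hlim hδ
  obtain ⟨C3, hC3, hmert⟩ := mertens_upper
  obtain ⟨C4, hC4, hnp⟩ := nonprime_bd
  have hl4 : (0 : ℝ) ≤ Real.log 4 := Real.log_nonneg (by norm_num)
  set C5 : ℝ := C1 + C2 + A * δ * C3 + (C2 + κ) * (A * (Real.log 4 + 4)) with hC5
  refine ⟨C5 / κ + A * C4, by positivity, fun N hN => ?_⟩
  have hN' : (0 : ℝ) < N := by exact_mod_cast hN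
  have hN1 : (1 : ℝ) ≤ N := by exact_mod_cast hN
  set L : ℝ := Real.log N with hL
  have hL0 : 0 ≤ L := Real.log_nonneg hN1
  have hLN : L ≤ N := (Real.log_le_sub_one_of_pos hN').trans (by linarith)
  set S : ℝ := ∑ n ∈ Ioc 0 N, c n * Real.log n with hS
  set G : ℝ := ∑ d ∈ Ioc 0 N, g d / (d : ℝ) with hG
  -- (a)
  have ha : S = ∑ d ∈ Ioc 0 N, g d * ∑ m ∈ Ioc 0 (N / d), c m := by
    rw [hS, sum_congr rfl (fun n _ => hid n), sum_Ioc_mul_eq_sum_sum]
  -- (b)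
  have hb1 : ∑ m ∈ Ioc 0 N, c m * (L - Real.log m) = (∑ m ∈ Ioc 0 N, c m) * L - S := by
    rw [hS, sum_mul, ← sum_sub_distrib]
    exact sum_congr rfl (fun m _ => by ring)
  have hb2 := weight_bd hC1 hlin N
  have hb3 : 0 ≤ ∑ m ∈ Ioc 0 N, c m * (L - Real.log m) := by
    apply sum_nonneg
    intro m hm
    rw [mem_Ioc] at hm
    apply mul_nonneg (hc m)
    apply sub_nonneg.2
    exact Real.log_le_log (by exact_mod_cast hm.1) (by exact_mod_cast hm.2)
  -- (c)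
  have hcc : |S - κ * N * L| ≤ δ * N * L + (C1 + C2) * N := by
    have h1 := herr N
    have h2 : S - κ * N * L = (∑ m ∈ Ioc 0 N, c m - κ * N) * L -
        ∑ m ∈ Ioc 0 N, c m * (L - Real.log m) := by
      rw [hb1]; ring
    rw [h2]
    calc |(∑ m ∈ Ioc 0 N, c m - κ * N) * L - ∑ m ∈ Ioc 0 N, c m * (L - Real.log m)|
        ≤ |(∑ m ∈ Ioc 0 N, c m - κ * N) * L| + |∑ m ∈ Ioc 0 N, c m * (L - Real.log m)| :=
          abs_sub _ _
      _ ≤ (δ * N + C2) * L + C1 * N := by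
          rw [abs_mul, abs_of_nonneg hL0, abs_of_nonneg hb3]
          exact add_le_add (mul_le_mul_of_nonneg_right h1 hL0) hb2
      _ ≤ δ * N * L + (C1 + C2) * N := by
          have := mul_le_mul_of_nonneg_left hLN hC2
          nlinarith
  -- (d)
  have hGA : G ≤ A * (L + C3) := by
    calc G ≤ ∑ d ∈ Ioc 0 N, A * (Λ d / (d : ℝ)) := by
          rw [hG]
          apply sum_le_sum
          intro d hd
          rw [← mul_div_assoc]
          exact div_le_div_of_nonneg_right (hgA d) (Nat.cast_nonneg _)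
      _ = A * ∑ d ∈ Ioc 0 N, Λ d / (d : ℝ) := by rw [mul_sum]
      _ ≤ A * (L + C3) := mul_le_mul_of_nonneg_left (hmert N hN) hA
  have hgs : ∑ d ∈ Ioc 0 N, g d ≤ A * ((Real.log 4 + 4) * N) := by
    calc ∑ d ∈ Ioc 0 N, g d ≤ ∑ d ∈ Ioc 0 N, A * Λ d := sum_le_sum (fun d _ => hgA d)
      _ = A * ∑ d ∈ Ioc 0 N, Λ d := by rw [mul_sum]
      _ ≤ _ := mul_le_mul_of_nonneg_left (psi_bd N) hA
  have hd1 : |S - κ * N * G| ≤ δ * N * G + (C2 + κ) * ∑ d ∈ Ioc 0 N, g d := by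
    have h1 : S - κ * N * G =
        ∑ d ∈ Ioc 0 N, g d * (∑ m ∈ Ioc 0 (N / d), c m - κ * ((N : ℝ) / d)) := by
      rw [ha, hG, mul_sum, ← sum_sub_distrib]
      exact sum_congr rfl (fun m _ => by ring)
    have h2 : δ * N * G + (C2 + κ) * ∑ d ∈ Ioc 0 N, g d =
        ∑ d ∈ Ioc 0 N, g d * (δ * ((N : ℝ) / d) + (C2 + κ)) := by
      rw [hG, mul_sum, mul_sum, ← sum_add_distrib]
      exact sum_congr rfl (fun m _ => by ring)
    rw [h1, h2]
    refine (abs_sum_le_sum_abs _ _).trans (sum_le_sum ?_)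
    intro d hd
    rw [abs_mul, abs_of_nonneg (hg d)]
    apply mul_le_mul_of_nonneg_left _ (hg d)
    have h3 := herr (N / d)
    have h4 := floor_bd N d
    have h5 : ((N / d : ℕ) : ℝ) ≤ (N : ℝ) / d := Nat.cast_div_le
    have h6 : ∑ m ∈ Ioc 0 (N / d), c m - κ * ((N : ℝ) / d) =
        (∑ m ∈ Ioc 0 (N / d), c m - κ * ((N / d : ℕ) : ℝ)) +
          κ * (((N / d : ℕ) : ℝ) - (N : ℝ) / d) := by ring
    rw [h6]
    calc _ ≤ |∑ m ∈ Ioc 0 (N / d), c m - κ * ((N / d : ℕ) : ℝ)| +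
          |κ * (((N / d : ℕ) : ℝ) - (N : ℝ) / d)| := abs_add_le _ _
      _ ≤ (δ * ((N / d : ℕ) : ℝ) + C2) + κ * 1 := by
          rw [abs_mul κ, abs_of_pos hκ]
          exact add_le_add h3 (mul_le_mul_of_nonneg_left h4 hκ.le)
      _ ≤ _ := by
          have := mul_le_mul_of_nonneg_left h5 hδ.le
          linarith
  -- (e)
  have he : κ * N * |G - L| ≤ N * (δ * (1 + A) * L + C5) := by
    have h1 : κ * N * |G - L| = |κ * N * G - κ * N * L| := by
      rw [← mul_sub, abs_mul, abs_of_pos (by positivity : 0 < κ * (N : ℝ))]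
    have h2 : |κ * N * G - κ * N * L| ≤ |S - κ * N * G| + |S - κ * N * L| := by
      have := abs_sub_le (κ * N * G) S (κ * N * L)
      rw [abs_sub_comm (κ * N * G) S] at this
      exact this
    have h3 : δ * N * G ≤ δ * N * (A * (L + C3)) :=
      mul_le_mul_of_nonneg_left hGA (by positivity)
    have h4 : (C2 + κ) * ∑ d ∈ Ioc 0 N, g d ≤ (C2 + κ) * (A * ((Real.log 4 + 4) * N)) :=
      mul_le_mul_of_nonneg_left hgs (by positivity)
    rw [h1]
    calc _ ≤ |S - κ * N * G| + |S - κ * N * L| := h2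
      _ ≤ (δ * N * (A * (L + C3)) + (C2 + κ) * (A * ((Real.log 4 + 4) * N))) +
          (δ * N * L + (C1 + C2) * N) := by linarith
      _ = N * (δ * (1 + A) * L + C5) := by rw [hC5]; ring
  have hf : |G - L| ≤ ε * L + C5 / κ := by
    have h1 : δ * (1 + A) = ε * κ := by
      rw [hδdef]; field_simp
    have h2 : N * (κ * |G - L|) ≤ N * (ε * κ * L + C5) := by
      rw [← h1]; linarith
    have h3 : κ * |G - L| ≤ ε * κ * L + C5 := le_of_mul_le_mul_left h2 hN'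
    have h4 : κ * |G - L| ≤ κ * (ε * L + C5 / κ) := by
      have : κ * (ε * L + C5 / κ) = ε * κ * L + C5 := by field_simp
      rw [this]; exact h3
    exact le_of_mul_le_mul_left h4 hκ
  -- (f)
  have hsplit : G = ∑ p ∈ (Ioc 0 N).filter Nat.Prime, g p / (p : ℝ) +
      ∑ p ∈ (Ioc 0 N).filter (fun d => ¬ d.Prime), g p / (p : ℝ) := by
    rw [hG, sum_filter_add_sum_filter_not]
  have hnp1 : ∑ p ∈ (Ioc 0 N).filter (fun d => ¬ d.Prime), g p / (p : ℝ) ≤ A * C4 := by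
    calc _ ≤ ∑ p ∈ (Ioc 0 N).filter (fun d => ¬ d.Prime), A * (Λ p / (p : ℝ)) := by
          apply sum_le_sum
          intro d hd
          rw [← mul_div_assoc]
          exact div_le_div_of_nonneg_right (hgA d) (Nat.cast_nonneg _)
      _ = A * ∑ p ∈ (Ioc 0 N).filter (fun d => ¬ d.Prime), (Λ p / (p : ℝ)) := by rw [mul_sum]
      _ ≤ A * C4 := mul_le_mul_of_nonneg_left (hnp N) hA
  have hnp2 : 0 ≤ ∑ p ∈ (Ioc 0 N).filter (fun d => ¬ d.Prime), g p / (p : ℝ) :=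
    sum_nonneg (fun p _ => div_nonneg (hg p) (Nat.cast_nonneg _))
  rw [abs_le] at hf ⊢
  constructor <;> linarith [hf.1, hf.2]

end MertensM

end Pool.Agent.Lib.MP5b6025.RP
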