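import Pool.Agent.Lib.MP_5b6025_nt.RP.Rho

/-!
# Rootless primes: there are many of them

`P ∈ ℤ[X]` irreducible over `ℚ` of degree at least `2`: for every `η > 0` and all large `D` there
are at least `D ^ (1 - η)` prime numbers `l ≤ D` such that `P` has no root modulo `l`.
-/

set_option autoImplicit false

open Finset NumberField Ideal Polynomial

namespace Pool.Agent.Lib.MP5b6025.RP

namespace MainM

open FieldM RootsM RhoM

/-- a set of generators of an intermediate field of `ℂ` generates it as an algebra -/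
theorem adjoin_top (S : Set ℂ) (hS : ∀ x ∈ S, IsAlgebraic ℚ x)
    (T : Set (IntermediateField.adjoin ℚ S)) (hT : (fun x : IntermediateField.adjoin ℚ S => (x : ℂ)) '' T = S) :
    Algebra.adjoin ℚ T = ⊤ := by
  have h1 := IntermediateField.adjoin_toSubalgebra_of_isAlgebraic hS
  rw [eq_top_iff]
  intro x _
  have h2 : (x : ℂ) ∈ Algebra.adjoin ℚ S := by
    rw [← h1]
    exact x.2
  have h3 : ∀ z ∈ Algebra.adjoin ℚ S, ∃ y ∈ Algebra.adjoin ℚ T, (y : ℂ) = z := by
    intro z hz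
    induction hz using Algebra.adjoin_induction with
    | mem z hz =>
      rw [← hT] at hz
      obtain ⟨t, ht, rfl⟩ := hz
      exact ⟨t, Algebra.subset_adjoin ht, rfl⟩
    | algebraMap r =>
      refine ⟨algebraMap ℚ _ r, Subalgebra.algebraMap_mem _ r, ?_⟩
      simp
    | add x y _ _ hx hy =>
      obtain ⟨a, ha, ha'⟩ := hx
      obtain ⟨b, hb, hb'⟩ := hy
      exact ⟨a + b, add_mem ha hb, by push_cast; rw [ha', hb']⟩
    | mul x y _ _ hx hy =>
      obtain ⟨a, ha, ha'⟩ := hx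
      obtain ⟨b, hb, hb'⟩ := hy
      exact ⟨a * b, mul_mem ha hb, by push_cast; rw [ha', hb']⟩
  obtain ⟨y, hy, hyx⟩ := h3 _ h2
  have h4 : y = x := Subtype.ext hyx
  rw [← h4]
  exact hy

theorem aeval_sub {F : IntermediateField ℚ ℂ} (x : F) (P : ℤ[X]) (h : aeval (x : ℂ) P = 0) :
    aeval x P = 0 := by
  apply FaithfulSMul.algebraMap_injective F ℂ
  rw [← aeval_algebraMap_apply, map_zero]
  exact h

/-- the two fields -/
theorem two_fields {P : ℤ[X]} (hP : Irreducible (P.map (Int.castRingHom ℚ)))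
    (hd : 2 ≤ P.natDegree) : ∃ (F F' : IntermediateField ℚ ℂ) (_ : NumberField F)
      (_ : NumberField F'),
      (∃ M : ℕ, M ≠ 0 ∧ ∀ p : ℕ, p.Prime → ¬ p ∣ M → rho P p ≤ (ids F p).card) ∧
      (∃ M : ℕ, M ≠ 0 ∧ ∀ p : ℕ, p.Prime → ¬ p ∣ M →
        (ids F' p).card ≤ rho P p * (rho P p - 1)) := by
  classical
  have hP0 : P ≠ 0 := by
    rintro rfl
    simp at hP
  have hcard : Fintype.card ((P.map (Int.castRingHom ℚ)).rootSet ℂ) = P.natDegree := by
    rw [card_rootSet_eq_natDegree hP.separable (IsAlgClosed.splits _),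
      natDegree_map_eq_of_injective Int.cast_injective]
  obtain ⟨⟨β₁, h1⟩, ⟨β₂, h2⟩, h12⟩ := Fintype.exists_pair_of_one_lt_card
    (α := (P.map (Int.castRingHom ℚ)).rootSet ℂ) (by omega)
  have h12' : β₁ ≠ β₂ := fun h => h12 (Subtype.ext h)
  rw [mem_rootSet] at h1 h2
  have key : ∀ β : ℂ, aeval β (P.map (Int.castRingHom ℚ)) = aeval β P := fun β =>
    aeval_map_algebraMap ℚ β P
  have hb1 : aeval β₁ P = 0 := by rw [← key]; exact h1.2
  have hb2 : aeval β₂ P = 0 := by rw [← key]; exact h2.2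
  have ha1 : IsAlgebraic ℚ β₁ := ⟨_, h1.1, h1.2⟩
  have ha2 : IsAlgebraic ℚ β₂ := ⟨_, h2.1, h2.2⟩
  have hS : ∀ x ∈ ({β₁, β₂} : Set ℂ), IsAlgebraic ℚ x := by
    rintro x (rfl | rfl)
    · exact ha1
    · exact ha2
  have hS1 : ∀ x ∈ ({β₁} : Set ℂ), IsAlgebraic ℚ x := by
    rintro x rfl
    exact ha1
  have hf1 : FiniteDimensional ℚ (IntermediateField.adjoin ℚ {β₁}) :=
    IntermediateField.finiteDimensional_adjoin (fun x hx => (hS1 x hx).isIntegral)
  have hf2 : FiniteDimensional ℚ (IntermediateField.adjoin ℚ {β₁, β₂}) :=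
    IntermediateField.finiteDimensional_adjoin (fun x hx => (hS x hx).isIntegral)
  have hn1 : NumberField (IntermediateField.adjoin ℚ {β₁}) := ⟨⟩
  have hn2 : NumberField (IntermediateField.adjoin ℚ {β₁, β₂}) := ⟨⟩
  refine ⟨IntermediateField.adjoin ℚ {β₁}, IntermediateField.adjoin ℚ {β₁, β₂}, hn1, hn2, ?_, ?_⟩
  · let b : IntermediateField.adjoin ℚ {β₁} := ⟨β₁, IntermediateField.subset_adjoin _ _ rfl⟩
    apply rho_le_card hP (β := b) (aeval_sub b P hb1)
    apply adjoin_top {β₁} hS1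
    simp [b]
  · let b : IntermediateField.adjoin ℚ {β₁, β₂} :=
      ⟨β₁, IntermediateField.subset_adjoin _ _ (by simp)⟩
    let b' : IntermediateField.adjoin ℚ {β₁, β₂} :=
      ⟨β₂, IntermediateField.subset_adjoin _ _ (by simp)⟩
    apply card_le_rho hP0 (β₁ := b) (β₂ := b') (aeval_sub b P hb1) (aeval_sub b' P hb2)
    · intro h
      exact h12' (congrArg Subtype.val h)
    · apply adjoin_top {β₁, β₂} hS
      simp [b, b', Set.image_pair]

theorem mertens_rat {ε : ℝ} (hε : 0 < ε) : ∃ C : ℝ, 0 ≤ C ∧ ∀ N : ℕ, 1 ≤ N →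
    |∑ p ∈ (Ioc 0 N).filter Nat.Prime, Real.log p / p - Real.log N| ≤ ε * Real.log N + C := by
  have hlim : Filter.Tendsto (fun N : ℕ => (∑ m ∈ Ioc 0 N,
      ((ArithmeticFunction.zeta : ArithmeticFunction ℕ) : ArithmeticFunction ℝ) m) / (N : ℝ))
      Filter.atTop (nhds 1) := by
    apply tendsto_const_nhds.congr'
    filter_upwards [Filter.eventually_gt_atTop 0] with N hN
    have h1 : ∑ m ∈ Ioc 0 N,
        ((ArithmeticFunction.zeta : ArithmeticFunction ℕ) : ArithmeticFunction ℝ) m = N := by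
      have h2 : ∀ m ∈ Ioc 0 N,
          ((ArithmeticFunction.zeta : ArithmeticFunction ℕ) : ArithmeticFunction ℝ) m = 1 := by
        intro m hm
        rw [mem_Ioc] at hm
        rw [ArithmeticFunction.natCoe_apply, ArithmeticFunction.zeta_apply_ne (by omega)]
        simp
      rw [sum_congr rfl h2]
      simp
    rw [h1]
    have : (N : ℝ) ≠ 0 := by exact_mod_cast hN.ne'
    field_simp
  obtain ⟨C, hC, h⟩ := MertensM.mertens (c := ((ArithmeticFunction.zeta : ArithmeticFunction ℕ) :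
    ArithmeticFunction ℝ)) (g := ArithmeticFunction.vonMangoldt) (κ := 1) (A := 1) one_pos
    zero_le_one (fun n => by rw [ArithmeticFunction.natCoe_apply]; positivity)
    (fun n => ArithmeticFunction.vonMangoldt_nonneg) (fun n => by rw [one_mul]) hlim (fun n => by
      rw [ArithmeticFunction.vonMangoldt_mul_zeta]
      rcases Nat.eq_zero_or_pos n with rfl | hn
      · simp
      · rw [ArithmeticFunction.natCoe_apply, ArithmeticFunction.zeta_apply_ne hn.ne']
        simp [ArithmeticFunction.log_apply]) hε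
  refine ⟨C, hC, fun N hN => ?_⟩
  have h1 := h N hN
  have h2 : ∑ p ∈ (Ioc 0 N).filter Nat.Prime, Real.log p / p =
      ∑ p ∈ (Ioc 0 N).filter Nat.Prime, ArithmeticFunction.vonMangoldt p / (p : ℝ) := by
    apply sum_congr rfl
    intro p hp
    rw [mem_filter] at hp
    rw [ArithmeticFunction.vonMangoldt_apply_prime hp.2]
  rw [h2]
  exact h1

/-- the pointwise inequality -/
theorem pointwise {d ρ c c' : ℕ} (h1 : ρ ≤ c) (h2 : c' ≤ ρ * (ρ - 1)) (h3 : ρ ≤ d) :
    (c' : ℝ) - d * c + d ≤ if ρ = 0 then (d : ℝ) else 0 := by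
  split_ifs with h0
  · subst h0
    have : c' = 0 := by simpa using h2
    subst this
    have : (0 : ℝ) ≤ (d : ℝ) * c := by positivity
    push_cast
    linarith
  · have hρ : 1 ≤ ρ := Nat.one_le_iff_ne_zero.2 h0
    have h1' : (ρ : ℝ) ≤ c := by exact_mod_cast h1
    have h2' : (c' : ℝ) ≤ ρ * (ρ - 1) := by
      have : ((ρ * (ρ - 1) : ℕ) : ℝ) = ρ * (ρ - 1) := by
        rw [Nat.cast_mul, Nat.cast_sub hρ, Nat.cast_one]
      rw [← this]
      exact_mod_cast h2
    have h3' : (ρ : ℝ) ≤ d := by exact_mod_cast h3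
    have hρ' : (1 : ℝ) ≤ ρ := by exact_mod_cast hρ
    have h4 : (d : ℝ) * ρ ≤ d * c := mul_le_mul_of_nonneg_left h1' (by positivity)
    nlinarith [mul_nonneg (sub_nonneg.2 hρ') (sub_nonneg.2 h3')]

/-- the sum over a window -/
theorem window {P : ℤ[X]} (hP : Irreducible (P.map (Int.castRingHom ℚ)))
    (hd : 2 ≤ P.natDegree) {ε : ℝ} (hε : 0 < ε) : ∃ (M : ℕ) (C : ℝ), 0 ≤ C ∧ ∀ N D : ℕ, 1 ≤ N → M ≤ N →
      N ≤ D → Real.log D - Real.log N - (1 + 2 * P.natDegree) * (2 * ε * Real.log D + 2 * C) ≤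
        P.natDegree * ∑ p ∈ ((Ioc N D).filter (fun p => p.Prime ∧ rho P p = 0)),
          Real.log p / p := by
  classical
  obtain ⟨F, F', hF, hF', ⟨M₁, hM₁, h1⟩, ⟨M₂, hM₂, h2⟩⟩ := two_fields hP hd
  obtain ⟨C₁, hC₁, hm1⟩ := mertens_field F hε
  obtain ⟨C₂, hC₂, hm2⟩ := mertens_field F' hε
  obtain ⟨C₃, hC₃, hm3⟩ := mertens_rat hε
  have hP0 : P ≠ 0 := by
    rintro rfl
    simp at hP
  set M : ℕ := M₁ + M₂ + P.leadingCoeff.natAbs with hM
  refine ⟨M, C₁ + C₂ + C₃, by positivity, fun N D hN hMN hND => ?_⟩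
  set d := P.natDegree with hdd
  have hD : 1 ≤ D := hN.trans hND
  have hlog : Real.log N ≤ Real.log D := Real.log_le_log (by exact_mod_cast hN)
    (by exact_mod_cast hND)
  have hlog0 : 0 ≤ Real.log N := Real.log_natCast_nonneg _
  -- windows
  have hwin : ∀ f : ℕ → ℝ, ∑ p ∈ (Ioc N D).filter Nat.Prime, f p =
      ∑ p ∈ (Ioc 0 D).filter Nat.Prime, f p - ∑ p ∈ (Ioc 0 N).filter Nat.Prime, f p := by
    intro f
    have h3 : (Ioc 0 D).filter Nat.Prime =
        (Ioc 0 N).filter Nat.Prime ∪ (Ioc N D).filter Nat.Prime := by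
      rw [← filter_union, Ioc_union_Ioc_eq_Ioc (Nat.zero_le _) hND]
    rw [h3, sum_union]
    · ring
    · rw [disjoint_left]
      intro x hx hx'
      rw [mem_filter, mem_Ioc] at hx hx'
      omega
  have hpt : ∀ p ∈ (Ioc N D).filter Nat.Prime,
      (((ids F' p).card : ℝ) - d * ((ids F p).card : ℝ) + d) * (Real.log p / p) ≤
      (if rho P p = 0 then (d : ℝ) else 0) * (Real.log p / p) := by
    intro p hp
    rw [mem_filter, mem_Ioc] at hp
    have hnd : ∀ m : ℕ, m ≠ 0 → m ≤ M → ¬ p ∣ m := by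
      intro m hm hmM hdvd
      have := Nat.le_of_dvd (Nat.pos_of_ne_zero hm) hdvd
      omega
    apply mul_le_mul_of_nonneg_right _ (div_nonneg (Real.log_natCast_nonneg _) (Nat.cast_nonneg _))
    apply pointwise (h1 p hp.2 (hnd M₁ hM₁ (by omega))) (h2 p hp.2 (hnd M₂ hM₂ (by omega)))
    apply rho_le_deg hp.2 (hnd _ _ (by omega))
    rw [Ne, Int.natAbs_eq_zero, leadingCoeff_eq_zero]
    exact hP0
  have hsum := sum_le_sum hpt
  have hR : ∑ p ∈ (Ioc N D).filter Nat.Prime, (if rho P p = 0 then (d : ℝ) else 0) *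
      (Real.log p / p) = d * ∑ p ∈ ((Ioc N D).filter (fun p => p.Prime ∧ rho P p = 0)),
          Real.log p / p := by
    rw [mul_sum, ← filter_filter, sum_filter (s := (Ioc N D).filter Nat.Prime)]
    apply sum_congr rfl
    intro p hp
    split_ifs <;> simp
  rw [hR] at hsum
  refine le_trans ?_ hsum
  have hL : ∑ p ∈ (Ioc N D).filter Nat.Prime,
      (((ids F' p).card : ℝ) - d * ((ids F p).card : ℝ) + d) * (Real.log p / p) =
      ∑ p ∈ (Ioc N D).filter Nat.Prime, ((ids F' p).card : ℝ) * (Real.log p / p) -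
      d * ∑ p ∈ (Ioc N D).filter Nat.Prime, ((ids F p).card : ℝ) * (Real.log p / p) +
      d * ∑ p ∈ (Ioc N D).filter Nat.Prime, Real.log p / p := by
    rw [mul_sum, mul_sum, ← sum_sub_distrib, ← sum_add_distrib]
    apply sum_congr rfl
    intro p hp
    ring
  rw [hL, hwin, hwin, hwin]
  have a1 := abs_le.1 (hm1 D hD)
  have a2 := abs_le.1 (hm1 N hN)
  have b1 := abs_le.1 (hm2 D hD)
  have b2 := abs_le.1 (hm2 N hN)
  have c1 := abs_le.1 (hm3 D hD)
  have c2 := abs_le.1 (hm3 N hN)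
  have hεN : ε * Real.log N ≤ ε * Real.log D := mul_le_mul_of_nonneg_left hlog hε.le
  set SA := ∑ p ∈ (Ioc 0 D).filter Nat.Prime, ((ids F p).card : ℝ) * (Real.log p / p)
  set SA' := ∑ p ∈ (Ioc 0 N).filter Nat.Prime, ((ids F p).card : ℝ) * (Real.log p / p)
  set SB := ∑ p ∈ (Ioc 0 D).filter Nat.Prime, ((ids F' p).card : ℝ) * (Real.log p / p)
  set SB' := ∑ p ∈ (Ioc 0 N).filter Nat.Prime, ((ids F' p).card : ℝ) * (Real.log p / p)
  set SC := ∑ p ∈ (Ioc 0 D).filter Nat.Prime, Real.log p / p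
  set SC' := ∑ p ∈ (Ioc 0 N).filter Nat.Prime, Real.log p / p
  have hd0 : (0 : ℝ) ≤ d := Nat.cast_nonneg _
  have e1 : SA - SA' ≤ Real.log D - Real.log N + (2 * ε * Real.log D + 2 * (C₁ + C₂ + C₃)) := by
    linarith [a1.2, a2.1]
  have e2 : Real.log D - Real.log N - (2 * ε * Real.log D + 2 * (C₁ + C₂ + C₃)) ≤ SB - SB' := by
    linarith [b1.1, b2.2]
  have e3 : Real.log D - Real.log N - (2 * ε * Real.log D + 2 * (C₁ + C₂ + C₃)) ≤ SC - SC' := by
    linarith [c1.1, c2.2]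
  have f1 := mul_le_mul_of_nonneg_left e1 hd0
  have f3 := mul_le_mul_of_nonneg_left e3 hd0
  linarith

end MainM

/-- **Rootless primes.** -/
theorem rootless_primes {P : ℤ[X]} (hP : Irreducible (P.map (Int.castRingHom ℚ)))
    (hd : 2 ≤ P.natDegree) {η : ℝ} (hη : 0 < η) : ∃ D₀ : ℕ, ∀ D : ℕ, D₀ ≤ D →
      (D : ℝ) ^ (1 - η) ≤
        (((Ioc 0 D).filter (fun p => p.Prime ∧ rho P p = 0)).card : ℝ) := by
  classical
  -- it is enough to treat small `η`
  set θ : ℝ := min (η / 2) (1 / 2) with hθ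
  have hθ0 : 0 < θ := by positivity
  have hθ1 : θ ≤ 1 / 2 := min_le_right _ _
  have hθη : 2 * θ ≤ η := by
    have := min_le_left (η / 2) (1 / 2 : ℝ)
    linarith
  set d := P.natDegree with hdd
  have hd0 : (0 : ℝ) < d := by
    have : 0 < d := by omega
    exact_mod_cast this
  set ε : ℝ := θ / (8 * (1 + 2 * d)) with hε
  have hε0 : 0 < ε := by positivity
  obtain ⟨M, C, hC, hwin⟩ := MainM.window hP hd hε0
  have t1 : Filter.Tendsto (fun D : ℕ => (D : ℝ) ^ (1 - θ)) Filter.atTop Filter.atTop :=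
    (tendsto_rpow_atTop (by linarith)).comp tendsto_natCast_atTop_atTop
  have t2 : Filter.Tendsto (fun D : ℕ => (D : ℝ) ^ θ) Filter.atTop Filter.atTop :=
    (tendsto_rpow_atTop hθ0).comp tendsto_natCast_atTop_atTop
  have t3 : Filter.Tendsto (fun D : ℕ => Real.log (D : ℝ)) Filter.atTop Filter.atTop :=
    Real.tendsto_log_atTop.comp tendsto_natCast_atTop_atTop
  have hev : ∀ᶠ D : ℕ in Filter.atTop, (M : ℝ) + 1 ≤ (D : ℝ) ^ (1 - θ) ∧
      2 * d / θ ≤ (D : ℝ) ^ θ ∧ (1 + 2 * d) * (2 * C) * (4 / θ) + 1 ≤ Real.log (D : ℝ) ∧ 1 ≤ D :=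
    ((t1.eventually_ge_atTop _).and ((t2.eventually_ge_atTop _).and
      ((t3.eventually_ge_atTop _).and (Filter.eventually_ge_atTop 1))))
  obtain ⟨D₀, hD₀⟩ := Filter.eventually_atTop.1 hev
  refine ⟨D₀, fun D hD => ?_⟩
  obtain ⟨g1, g2, g3, g4⟩ := hD₀ D hD
  have hDpos : (0 : ℝ) < D := by exact_mod_cast g4
  have hD1 : (1 : ℝ) ≤ D := by exact_mod_cast g4
  set N : ℕ := ⌊(D : ℝ) ^ (1 - θ)⌋₊ with hN
  have hpow0 : (0 : ℝ) < (D : ℝ) ^ (1 - θ) := Real.rpow_pos_of_pos hDpos _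
  have hNM : M + 1 ≤ N := by
    apply Nat.le_floor
    push_cast
    exact g1
  have hNle : (N : ℝ) ≤ (D : ℝ) ^ (1 - θ) := Nat.floor_le hpow0.le
  have hND : N ≤ D := by
    have : (N : ℝ) ≤ D := hNle.trans (by
      calc (D : ℝ) ^ (1 - θ) ≤ (D : ℝ) ^ (1 : ℝ) :=
            Real.rpow_le_rpow_of_exponent_le hD1 (by linarith)
        _ = D := Real.rpow_one _)
    exact_mod_cast this
  have hlogN : Real.log N ≤ (1 - θ) * Real.log D := by
    rw [← Real.log_rpow hDpos]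
    apply Real.log_le_log _ hNle
    have : 0 < N := by omega
    exact_mod_cast this
  have hw := hwin N D (by omega) (by omega) hND
  set T := (Ioc N D).filter (fun p => p.Prime ∧ rho P p = 0) with hT
  have hlogD : 0 < Real.log D := by
    have : 0 ≤ (1 + 2 * (d : ℝ)) * (2 * C) * (4 / θ) := by positivity
    linarith
  have hk1 : (1 + 2 * (d : ℝ)) * (2 * ε) = θ / 4 := by
    rw [hε]; field_simp; ring
  have hk2 : (1 + 2 * (d : ℝ)) * (2 * C) ≤ θ / 4 * Real.log D := by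
    have h1 : (1 + 2 * (d : ℝ)) * (2 * C) * (4 / θ) ≤ Real.log D := by linarith
    have h2 := mul_le_mul_of_nonneg_left h1 (by positivity : 0 ≤ θ / 4)
    have h3 : θ / 4 * ((1 + 2 * (d : ℝ)) * (2 * C) * (4 / θ)) = (1 + 2 * (d : ℝ)) * (2 * C) := by
      field_simp
    rw [h3] at h2
    exact h2
  have hk3 : θ / 2 * Real.log D ≤ d * ∑ p ∈ T, Real.log p / p := by
    refine le_trans ?_ hw
    have h1 : (1 + 2 * (d : ℝ)) * (2 * ε * Real.log D + 2 * C) =
        θ / 4 * Real.log D + (1 + 2 * (d : ℝ)) * (2 * C) := by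
      rw [← hk1]; ring
    rw [h1]
    linarith
  have hk4 : ∑ p ∈ T, Real.log p / (p : ℝ) ≤ T.card * (Real.log D / (D : ℝ) ^ (1 - θ)) := by
    rw [← nsmul_eq_mul, ← sum_const]
    apply sum_le_sum
    intro p hp
    rw [hT, mem_filter, mem_Ioc] at hp
    have h1 : (D : ℝ) ^ (1 - θ) < p := Nat.lt_of_floor_lt hp.1.1
    have h2 : Real.log p ≤ Real.log D :=
      Real.log_le_log (by exact_mod_cast hp.2.1.pos) (by exact_mod_cast hp.1.2)
    exact div_le_div₀ hlogD.le h2 hpow0 h1.le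
  have hk5 : θ / 2 * Real.log D ≤ d * (T.card * (Real.log D / (D : ℝ) ^ (1 - θ))) :=
    hk3.trans (mul_le_mul_of_nonneg_left hk4 hd0.le)
  have hk6 : θ / (2 * d) * (D : ℝ) ^ (1 - θ) ≤ T.card := by
    have h1 : (d : ℝ) * (T.card * (Real.log D / (D : ℝ) ^ (1 - θ))) =
        (d * T.card / (D : ℝ) ^ (1 - θ)) * Real.log D := by ring
    rw [h1] at hk5
    have h2 := le_of_mul_le_mul_right hk5 hlogD
    rw [le_div_iff₀ hpow0] at h2
    have h3 : θ / (2 * d) * (D : ℝ) ^ (1 - θ) = (θ / 2 * (D : ℝ) ^ (1 - θ)) / d := by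
      field_simp
    rw [h3, div_le_iff₀ hd0]
    linarith
  have hk7 : (D : ℝ) ^ (1 - η) ≤ θ / (2 * d) * (D : ℝ) ^ (1 - θ) := by
    calc (D : ℝ) ^ (1 - η) ≤ (D : ℝ) ^ (1 - 2 * θ) :=
          Real.rpow_le_rpow_of_exponent_le hD1 (by linarith)
      _ = (D : ℝ) ^ (1 - θ) / (D : ℝ) ^ θ := by
          rw [← Real.rpow_sub hDpos]
          congr 1
          ring
      _ ≤ (D : ℝ) ^ (1 - θ) / (2 * d / θ) :=
          div_le_div_of_nonneg_left hpow0.le (by positivity) g2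
      _ = θ / (2 * d) * (D : ℝ) ^ (1 - θ) := by
          field_simp
  have hk8 : T.card ≤ ((Ioc 0 D).filter (fun p => p.Prime ∧ rho P p = 0)).card := by
    apply card_le_card
    intro p hp
    rw [hT, mem_filter, mem_Ioc] at hp
    rw [mem_filter, mem_Ioc]
    exact ⟨⟨by omega, hp.1.2⟩, hp.2⟩
  calc (D : ℝ) ^ (1 - η) ≤ θ / (2 * d) * (D : ℝ) ^ (1 - θ) := hk7
    _ ≤ T.card := hk6
    _ ≤ _ := by exact_mod_cast hk8

/-- No root of `P` modulo `p`. -/
theorem rho_eq_zero_iff {P : ℤ[X]} {p : ℕ} (hp : p.Prime) :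
    rho P p = 0 ↔ ∀ x : ZMod p, P.eval₂ (Int.castRingHom (ZMod p)) x ≠ 0 := by
  have := Fact.mk hp
  rw [rho, Nat.card_eq_zero]
  constructor
  · rintro (h | h) x hx
    · exact h.false ⟨x, hx⟩
    · exact h.false
  · intro h
    exact Or.inl ⟨fun x => h x.1 x.2⟩

end Pool.Agent.Lib.MP5b6025.RP
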