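import Pool.Agent.Lib.MP_5b6025_nt.RP.Mertens

/-!
# Rootless primes: Mertens' estimate for a number field

`∑_{p ≤ N} c_K(p) log p / p = (1 + o(1)) log N`, where `c_K(p)` is the number of ideals of norm `p`.
-/

set_option autoImplicit false

open ArithmeticFunction Finset Filter Topology NumberField Ideal UniqueFactorizationMonoid
open scoped nonZeroDivisors

namespace Pool.Agent.Lib.MP5b6025.RP

namespace FieldM

variable (K : Type*) [Field K] [NumberField K]

/-- the ideals of norm `n` -/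
noncomputable def ids (n : ℕ) : Finset (Ideal (𝓞 K)) :=
  (Ideal.finite_setOfPred_absNorm_eq (S := 𝓞 K) n).toFinset

variable {K}

theorem mem_ids {n : ℕ} {I : Ideal (𝓞 K)} : I ∈ ids K n ↔ absNorm I = n := by simp [ids]

theorem two_le {P : Ideal (𝓞 K)} (hP : Prime P) : 2 ≤ absNorm P := by
  have h0 : absNorm P ≠ 0 := by
    rw [Ne, absNorm_eq_zero_iff]
    exact hP.ne_zero
  have h1 : absNorm P ≠ 1 := by
    rw [Ne, absNorm_eq_one_iff]
    intro h
    apply hP.not_isUnit
    rw [h, ← Ideal.one_eq_top]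
    exact isUnit_one
  omega

variable (K)

open Classical in
/-- the pairs `(𝔭, k)`, `𝔭` a nonzero prime ideal, `k ≥ 1`, with `N 𝔭 ^ k = n` -/
noncomputable def pps (n : ℕ) : Finset (Ideal (𝓞 K) × ℕ) :=
  (((Ideal.finite_setOfPred_absNorm_le (S := 𝓞 K) n).toFinset) ×ˢ (Icc 1 n)).filter
    (fun x => Prime x.1 ∧ absNorm x.1 ^ x.2 = n)

variable {K}

theorem mem_pps {n : ℕ} {x : Ideal (𝓞 K) × ℕ} :
    x ∈ pps K n ↔ Prime x.1 ∧ 1 ≤ x.2 ∧ absNorm x.1 ^ x.2 = n := by
  classical
  rw [pps, mem_filter, mem_product, Set.Finite.mem_toFinset, mem_Icc]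
  constructor
  · rintro ⟨⟨h1, h2⟩, h3, h4⟩
    exact ⟨h3, h2.1, h4⟩
  · rintro ⟨h1, h2, h3⟩
    have h4 := two_le h1
    refine ⟨⟨?_, h2, ?_⟩, h1, h3⟩
    · show absNorm x.1 ≤ n
      rw [← h3]
      exact Nat.le_self_pow (by omega) _
    · rw [← h3]
      exact (Nat.lt_pow_self (by omega)).le

open Classical in
/-- the pairs `(𝔭, k)`, `𝔭` a prime ideal, `k ≥ 1`, with `𝔭 ^ k ∣ I` -/
noncomputable def Q (I : Ideal (𝓞 K)) : Finset (Ideal (𝓞 K) × ℕ) :=
  ((normalizedFactors I).toFinset ×ˢ Icc 1 (Multiset.card (normalizedFactors I))).filter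
    (fun y => y.2 ≤ (normalizedFactors I).count y.1)

theorem mem_Q {I : Ideal (𝓞 K)} (hI : I ≠ ⊥) {y : Ideal (𝓞 K) × ℕ} :
    y ∈ Q I ↔ Prime y.1 ∧ 1 ≤ y.2 ∧ y.1 ^ y.2 ∣ I := by
  classical
  rw [Q, mem_filter, mem_product, mem_Icc, Multiset.mem_toFinset]
  have key : ∀ P : Ideal (𝓞 K), Prime P → ∀ k : ℕ,
      (P ^ k ∣ I ↔ k ≤ (normalizedFactors I).count P) := by
    intro P hP k
    rw [pow_dvd_iff_le_emultiplicity,
      emultiplicity_eq_count_normalizedFactors hP.irreducible hI, normalize_eq]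
    exact Nat.cast_le
  constructor
  · rintro ⟨⟨h1, h2⟩, h3⟩
    have hP := prime_of_normalized_factor _ h1
    refine ⟨hP, h2.1, (key _ hP _).2 ?_⟩
    convert! h3
  · rintro ⟨h1, h2, h3⟩
    have h4 := (key _ h1 _).1 h3
    have h5 : y.2 ≤ Multiset.count y.1 (normalizedFactors I) := by convert! h4
    have h6 : 1 ≤ Multiset.count y.1 (normalizedFactors I) := h2.trans h5
    refine ⟨⟨Multiset.one_le_count_iff_mem.1 h6, h2, ?_⟩, h5⟩
    exact h5.trans (Multiset.count_le_card _ _)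

theorem log_norm {I : Ideal (𝓞 K)} (hI : I ≠ ⊥) :
    ∑ y ∈ Q I, Real.log (absNorm y.1) = Real.log (absNorm I) := by
  classical
  have h1 : (absNorm I : ℝ) = ∏ P ∈ (normalizedFactors I).toFinset,
      (absNorm P : ℝ) ^ ((normalizedFactors I).count P) := by
    conv_lhs => rw [← Ideal.prod_normalizedFactors_eq_self hI]
    rw [Finset.prod_multiset_count, map_prod]
    push_cast
    apply prod_congr rfl
    intro P hP
    rw [map_pow]
    push_cast
    rfl
  rw [h1, Real.log_prod]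
  · rw [Q, sum_filter, sum_product]
    apply sum_congr
    · ext P
      simp
    intro P hP
    rw [Real.log_pow]
    dsimp only
    rw [← sum_filter, sum_const, nsmul_eq_mul]
    congr 2
    have h2 : (Icc 1 (Multiset.card (normalizedFactors I))).filter
        (fun k => k ≤ (normalizedFactors I).count P) = Icc 1 ((normalizedFactors I).count P) := by
      ext k
      simp only [mem_filter, mem_Icc]
      have := Multiset.count_le_card P (normalizedFactors I)
      omega
    convert! congrArg Finset.card h2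
    simp
  · intro P hP
    rw [Multiset.mem_toFinset] at hP
    have := two_le (prime_of_normalized_factor _ hP)
    apply pow_ne_zero
    have : absNorm P ≠ 0 := by omega
    exact_mod_cast this

variable (K)

/-- the number of ideals of norm `n` -/
noncomputable def cK : ArithmeticFunction ℝ :=
  ⟨fun n => if n = 0 then 0 else ((ids K n).card : ℝ), by simp⟩

/-- `∑_{N 𝔭 ^ k = n} log N 𝔭` -/
noncomputable def gK : ArithmeticFunction ℝ :=
  ⟨fun n => if n = 0 then 0 else ∑ x ∈ pps K n, Real.log (absNorm x.1), by simp⟩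

theorem cK_apply {n : ℕ} (hn : n ≠ 0) : cK K n = ((ids K n).card : ℝ) := by
  show (if n = 0 then (0 : ℝ) else _) = _
  rw [if_neg hn]

theorem gK_apply {n : ℕ} (hn : n ≠ 0) : gK K n = ∑ x ∈ pps K n, Real.log (absNorm x.1) := by
  show (if n = 0 then (0 : ℝ) else _) = _
  rw [if_neg hn]

theorem identity (n : ℕ) : cK K n * Real.log n = (gK K * cK K) n := by
  classical
  rcases Nat.eq_zero_or_pos n with rfl | hn
  · simp
  have hne : ∀ I ∈ ids K n, I ≠ ⊥ := by
    intro I hI h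
    rw [mem_ids, h, absNorm_bot] at hI
    omega
  have h1 : cK K n * Real.log n = ∑ z ∈ (ids K n).sigma (fun I => Q I),
      Real.log (absNorm z.2.1) := by
    rw [sum_sigma, cK_apply K hn.ne', ← nsmul_eq_mul, ← sum_const]
    apply sum_congr rfl
    intro I hI
    rw [log_norm (hne I hI), mem_ids.1 hI]
  have h2 : (gK K * cK K) n = ∑ z ∈ (Nat.divisorsAntidiagonal n).sigma
      (fun x => pps K x.1 ×ˢ ids K x.2), Real.log (absNorm z.2.1.1) := by
    rw [sum_sigma, ArithmeticFunction.mul_apply]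
    apply sum_congr rfl
    intro x hx
    rw [Nat.mem_divisorsAntidiagonal] at hx
    have hx1 : x.1 ≠ 0 := by
      rintro h
      rw [h, zero_mul] at hx
      exact hx.2 hx.1.symm
    have hx2 : x.2 ≠ 0 := by
      rintro h
      rw [h, mul_zero] at hx
      exact hx.2 hx.1.symm
    rw [gK_apply K hx1, cK_apply K hx2, sum_product, sum_mul]
    apply sum_congr rfl
    intro y hy
    show _ = ∑ _J ∈ ids K x.2, Real.log (absNorm y.1)
    rw [sum_const, nsmul_eq_mul, mul_comm]
  rw [h1, h2]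
  symm
  refine sum_bij (fun z _ => ⟨z.2.1.1 ^ z.2.1.2 * z.2.2, z.2.1⟩) ?_ ?_ ?_ ?_
  · rintro ⟨⟨d, e⟩, ⟨P, k⟩, J⟩ hz
    simp only [mem_sigma, Nat.mem_divisorsAntidiagonal, mem_product, mem_pps, mem_ids] at hz ⊢
    obtain ⟨⟨h1, h2⟩, ⟨h3, h4, h5⟩, h6⟩ := hz
    have h7 : absNorm (P ^ k * J) = n := by
      rw [map_mul, map_pow, h5, h6, h1]
    have h8 : P ^ k * J ≠ ⊥ := hne _ (mem_ids.2 h7)
    exact ⟨h7, (mem_Q h8).2 ⟨h3, h4, dvd_mul_right _ _⟩⟩
  · rintro ⟨⟨d, e⟩, ⟨P, k⟩, J⟩ hz ⟨⟨d', e'⟩, ⟨P', k'⟩, J'⟩ hz' h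
    simp only [mem_sigma, Nat.mem_divisorsAntidiagonal, mem_product, mem_pps, mem_ids] at hz hz'
    simp only [Sigma.mk.injEq, heq_eq_eq, Prod.mk.injEq] at h
    obtain ⟨h1, h2, h3⟩ := h
    subst h2 h3
    obtain ⟨⟨a1, a2⟩, ⟨a3, a4, a5⟩, a6⟩ := hz
    obtain ⟨⟨b1, b2⟩, ⟨b3, b4, b5⟩, b6⟩ := hz'
    have h4 : J = J' := mul_left_cancel₀ (pow_ne_zero _ a3.ne_zero) h1
    subst h4
    rw [← a5, ← a6, ← b5, ← b6]
  · rintro ⟨I, ⟨P, k⟩⟩ hz
    simp only [mem_sigma, mem_ids] at hz
    obtain ⟨h1, h2⟩ := hz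
    have h3 := hne _ (mem_ids.2 h1)
    rw [mem_Q h3] at h2
    obtain ⟨h4, h5, J, h6⟩ := h2
    dsimp only at h4 h5 h6
    refine ⟨⟨(absNorm P ^ k, absNorm J), (P, k), J⟩, ?_, ?_⟩
    · simp only [mem_sigma, Nat.mem_divisorsAntidiagonal, mem_product, mem_pps, mem_ids]
      refine ⟨⟨?_, hn.ne'⟩, ⟨h4, h5, trivial⟩, trivial⟩
      rw [← map_pow, ← map_mul, ← h6, h1]
    · simp only [h6]
  · rintro ⟨⟨d, e⟩, ⟨P, k⟩, J⟩ hz
    rfl

theorem gK_nonneg (n : ℕ) : 0 ≤ gK K n := by
  rcases Nat.eq_zero_or_pos n with rfl | hn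
  · simp
  rw [gK_apply K hn.ne']
  exact sum_nonneg (fun x _ => Real.log_natCast_nonneg _)

theorem cK_nonneg (n : ℕ) : 0 ≤ cK K n := by
  rcases Nat.eq_zero_or_pos n with rfl | hn
  · simp
  rw [cK_apply K hn.ne']
  positivity

theorem gK_le (n : ℕ) : gK K n ≤ (Module.finrank ℤ (𝓞 K) : ℝ) * Λ n := by
  classical
  rcases Nat.eq_zero_or_pos n with rfl | hn
  · simp
  rw [gK_apply K hn.ne']
  rcases (pps K n).eq_empty_or_nonempty with he | ⟨⟨P0, k0⟩, h0⟩
  · rw [he, sum_empty]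
    exact mul_nonneg (Nat.cast_nonneg _) vonMangoldt_nonneg
  · rw [mem_pps] at h0
    obtain ⟨h1, h2, h3⟩ := h0
    dsimp only at h1 h2 h3
    have hmax : P0.IsMaximal := (Ideal.isPrime_of_prime h1).isMaximal h1.ne_zero
    obtain ⟨p, f, hf, hpP, hp, hPf⟩ := exists_prime_and_absNorm_eq_pow P0
    have hnp : n = p ^ (f * k0) := by rw [← h3, hPf, pow_mul]
    have hΛ : Λ n = Real.log p := by
      rw [hnp, vonMangoldt_apply_pow (by positivity), vonMangoldt_apply_prime hp]
    have hinj : Set.InjOn Prod.fst (pps K n : Set (Ideal (𝓞 K) × ℕ)) := by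
      rintro ⟨P, k⟩ h ⟨P', k'⟩ h' hPP
      rw [mem_coe, mem_pps] at h h'
      dsimp only at h h' hPP
      subst hPP
      have h4 : absNorm P ^ k = absNorm P ^ k' := h.2.2.trans h'.2.2.symm
      rw [Nat.pow_right_injective (two_le h.1) h4]
    have h5 : ∑ x ∈ pps K n, Real.log (absNorm x.1) =
        ∑ P ∈ (pps K n).image Prod.fst, Real.log (absNorm P) := by
      rw [sum_image hinj]
    rw [h5, hΛ]
    have h6 : (∏ P ∈ (pps K n).image Prod.fst, P) ∣ Ideal.span {(p : 𝓞 K)} := by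
      apply prod_primes_dvd
      · intro P hP
        rw [mem_image] at hP
        obtain ⟨x, hx, rfl⟩ := hP
        exact (mem_pps.1 hx).1
      · intro P hP
        rw [mem_image] at hP
        obtain ⟨x, hx, rfl⟩ := hP
        rw [mem_pps] at hx
        rw [Ideal.dvd_span_singleton]
        have hprime := Ideal.isPrime_of_prime hx.1
        have h7 : ((n : ℕ) : 𝓞 K) ∈ x.1 := by
          rw [← hx.2.2]
          push_cast
          exact Ideal.pow_mem_of_mem _ (absNorm_mem _) _ (by omega)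
        rw [hnp] at h7
        push_cast at h7
        exact hprime.mem_of_pow_mem _ h7
    have h8 : (∏ P ∈ (pps K n).image Prod.fst, absNorm P) ∣ p ^ Module.finrank ℤ (𝓞 K) := by
      rw [← absNorm_span_natCast, ← map_prod]
      exact map_dvd _ h6
    have h9 : (∏ P ∈ (pps K n).image Prod.fst, absNorm P) ≤ p ^ Module.finrank ℤ (𝓞 K) :=
      Nat.le_of_dvd (pow_pos hp.pos _) h8
    have h10 : ∀ P ∈ (pps K n).image Prod.fst, (absNorm P : ℝ) ≠ 0 := by
      intro P hP
      rw [mem_image] at hP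
      obtain ⟨x, hx, rfl⟩ := hP
      have := two_le (mem_pps.1 hx).1
      have : absNorm x.1 ≠ 0 := by omega
      exact_mod_cast this
    rw [← Real.log_prod h10, ← Real.log_pow]
    apply Real.log_le_log
    · apply prod_pos
      intro P hP
      exact lt_of_le_of_ne (Nat.cast_nonneg _) (h10 P hP).symm
    · exact_mod_cast h9

theorem gK_prime {p : ℕ} (hp : p.Prime) : gK K p = ((ids K p).card : ℝ) * Real.log p := by
  have h1 := identity K p
  have h0 : Nat.divisorsAntidiagonal p = {(1, p), (p, 1)} := by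
    ext ⟨a, b⟩
    simp only [Nat.mem_divisorsAntidiagonal, mem_insert, mem_singleton, Prod.mk.injEq]
    constructor
    · rintro ⟨h2, h3⟩
      rcases (Nat.dvd_prime hp).1 (Dvd.intro _ h2) with h | h
      · left; subst h; simpa using h2
      · right
        subst h
        exact ⟨rfl, Nat.eq_of_mul_eq_mul_left hp.pos (by simpa using h2)⟩
    · rintro (⟨rfl, rfl⟩ | ⟨rfl, rfl⟩)
      · exact ⟨one_mul _, hp.ne_zero⟩
      · exact ⟨mul_one _, hp.ne_zero⟩
  rw [cK_apply K hp.ne_zero, ArithmeticFunction.mul_apply, h0, sum_pair] at h1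
  · have h2 : gK K 1 = 0 := by
      have h3 := gK_le K 1
      have h4 := gK_nonneg K 1
      rw [vonMangoldt_apply_one, mul_zero] at h3
      linarith
    have h5 : cK K 1 = 1 := by
      rw [cK_apply K one_ne_zero]
      have : ids K 1 = {⊤} := by
        ext I
        rw [mem_ids, mem_singleton, absNorm_eq_one_iff]
      rw [this]
      simp
    rw [h2, h5] at h1
    simp only [zero_mul, mul_one, zero_add] at h1
    exact h1.symm
  · intro h
    have := congrArg Prod.fst h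
    exact hp.one_lt.ne this

theorem tendsto_cK : ∃ κ : ℝ, 0 < κ ∧
    Tendsto (fun N : ℕ => (∑ m ∈ Ioc 0 N, cK K m) / (N : ℝ)) atTop (𝓝 κ) := by
  classical
  have h := (NumberField.Ideal.tendsto_norm_le_div_atTop₀ K).comp
    (tendsto_natCast_atTop_atTop (R := ℝ))
  refine ⟨_, ?_, h.congr ?_⟩
  · have h1 := NumberField.Units.regulator_pos K
    have h2 : 0 < classNumber K := classNumber_pos K
    have h3 : 0 < NumberField.Units.torsionOrder K := NumberField.Units.torsionOrder_pos K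
    have h4 : 0 < |(discr K : ℝ)| := by
      rw [abs_pos]
      exact_mod_cast discr_ne_zero K
    positivity
  · intro N
    simp only [Function.comp_apply]
    congr 1
    have h1 : ∑ m ∈ Ioc 0 N, cK K m = ((∑ m ∈ Ioc 0 N, (ids K m).card : ℕ) : ℝ) := by
      push_cast
      apply sum_congr rfl
      intro m hm
      rw [mem_Ioc] at hm
      exact cK_apply K (by omega)
    rw [h1]
    congr 1
    simp only [Nat.cast_le]
    have h2 : ∑ m ∈ Ioc 0 N, (ids K m).card = ((Ioc 0 N).biUnion (fun m => ids K m)).card := by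
      rw [card_biUnion]
      intro a _ b _ hab
      rw [Function.onFun, disjoint_left]
      intro I hI hI'
      rw [mem_ids] at hI hI'
      exact hab (hI.symm.trans hI')
    rw [h2, Nat.card_congr (Equiv.subtypeSubtypeEquivSubtypeInter _ (fun I ↦ absNorm I ≤ N)),
      ← Fintype.card_coe, ← Nat.card_eq_fintype_card]
    apply Nat.card_congr
    apply Equiv.subtypeEquivRight
    intro I
    simp only [mem_biUnion, mem_Ioc, mem_ids]
    constructor
    · rintro ⟨h3, h4⟩
      exact ⟨_, ⟨absNorm_pos_iff_mem_nonZeroDivisors.2 h3, h4⟩, rfl⟩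
    · rintro ⟨m, ⟨h3, h4⟩, h5⟩
      subst h5
      exact ⟨absNorm_pos_iff_mem_nonZeroDivisors.1 h3, h4⟩

/-- **Mertens' estimate for a number field** (ideals of prime norm). -/
theorem mertens_field {ε : ℝ} (hε : 0 < ε) : ∃ C : ℝ, 0 ≤ C ∧ ∀ N : ℕ, 1 ≤ N →
    |∑ p ∈ (Ioc 0 N).filter Nat.Prime, ((ids K p).card : ℝ) * (Real.log p / p) - Real.log N|
      ≤ ε * Real.log N + C := by
  obtain ⟨κ, hκ, hlim⟩ := tendsto_cK K
  obtain ⟨C, hC, h⟩ := MertensM.mertens hκ (Nat.cast_nonneg (Module.finrank ℤ (𝓞 K)))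
    (cK_nonneg K) (gK_nonneg K) (gK_le K) hlim (identity K) hε
  refine ⟨C, hC, fun N hN => ?_⟩
  have h1 : ∑ p ∈ (Ioc 0 N).filter Nat.Prime, ((ids K p).card : ℝ) * (Real.log p / p) =
      ∑ p ∈ (Ioc 0 N).filter Nat.Prime, gK K p / (p : ℝ) := by
    apply sum_congr rfl
    intro p hp
    rw [mem_filter] at hp
    rw [gK_prime K hp.2]
    ring
  rw [h1]
  exact h N hN

end FieldM

end Pool.Agent.Lib.MP5b6025.RP
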