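import Pool.Agent.Lib.MP_5b6025_nt.RP.Roots

/-!
# Rootless primes: roots modulo `p` and ideals of norm `p`
-/

set_option autoImplicit false

open Finset NumberField Ideal Polynomial

namespace Pool.Agent.Lib.MP5b6025.RP

/-- the number of roots of `P` modulo `p` -/
noncomputable def rho (P : ℤ[X]) (p : ℕ) : ℕ :=
  Nat.card {x : ZMod p // P.eval₂ (Int.castRingHom (ZMod p)) x = 0}

namespace RhoM

open FieldM RootsM

variable {K : Type*} [Field K] [NumberField K]

theorem natCard_ids (p : ℕ) : Nat.card {I : Ideal (𝓞 K) // I ∈ ids K p} = (ids K p).card := by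
  rw [Nat.card_eq_fintype_card, Fintype.card_coe]

/-- the integral multiple of a root -/
theorem exists_int {P : ℤ[X]} {β : K} (hβ : aeval β P = 0) :
    ∃ α : 𝓞 K, algebraMap (𝓞 K) K α = (P.leadingCoeff : K) * β := by
  have h := isIntegral_leadingCoeff_smul P β hβ
  refine ⟨⟨(P.leadingCoeff : ℤ) • β, h⟩, ?_⟩
  show P.leadingCoeff • β = (P.leadingCoeff : K) * β
  rw [zsmul_eq_mul]

theorem cast_ne {p : ℕ} {a : ℤ} (h : ¬ p ∣ a.natAbs) : ((a : ℤ) : ZMod p) ≠ 0 := by
  rw [Ne, ZMod.intCast_zmod_eq_zero_iff_dvd, Int.natCast_dvd]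
  exact h

/-- transfer of a root modulo `p` -/
theorem root_transfer {P : ℤ[X]} (hP : Irreducible (P.map (Int.castRingHom ℚ))) {β : K}
    (hβ : aeval β P = 0) {α : 𝓞 K} (hα : algebraMap (𝓞 K) K α = (P.leadingCoeff : K) * β) :
    ∃ c : ℤ, c ≠ 0 ∧ ∀ p : ℕ, p.Prime → ¬ p ∣ c.natAbs → ∀ x : ZMod p,
      P.eval₂ (Int.castRingHom (ZMod p)) x = 0 →
      (minpoly ℤ α).eval₂ (Int.castRingHom (ZMod p)) ((P.leadingCoeff : ZMod p) * x) = 0 := by
  set a : ℤ := P.leadingCoeff with ha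
  set R : ℤ[X] := (minpoly ℤ α).comp (C a * X) with hR
  have hRβ : aeval β R = 0 := by
    rw [hR, aeval_comp]
    have h1 : aeval β (C a * X : ℤ[X]) = algebraMap (𝓞 K) K α := by
      rw [map_mul, aeval_X, aeval_C, hα]
      simp
    rw [h1, aeval_algebraMap_apply, minpoly.aeval, map_zero]
  have hPβ : aeval β (P.map (Int.castRingHom ℚ)) = 0 := by
    have := aeval_map_algebraMap ℚ β P
    rw [← hβ, ← this]
    rfl
  have hRβ' : aeval β (R.map (Int.castRingHom ℚ)) = 0 := by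
    have := aeval_map_algebraMap ℚ β R
    rw [← hRβ, ← this]
    rfl
  have hdvd : P.map (Int.castRingHom ℚ) ∣ R.map (Int.castRingHom ℚ) := by
    have hint : IsIntegral ℚ β := ⟨_, monic_mul_leadingCoeff_inv hP.ne_zero, by
      rw [← aeval_def, map_mul, hPβ, zero_mul]⟩
    have h1 := minpoly.dvd ℚ β hPβ
    have h2 := minpoly.dvd ℚ β hRβ'
    have h3 : Associated (minpoly ℚ β) (P.map (Int.castRingHom ℚ)) :=
      (minpoly.irreducible hint).associated_of_dvd hP h1
    exact h3.dvd_iff_dvd_left.1 h2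
  obtain ⟨H, hH⟩ := hdvd
  obtain ⟨b, hb0, hb⟩ := IsLocalization.integerNormalization_spec (nonZeroDivisors ℤ) H
  set H' := IsLocalization.integerNormalization (nonZeroDivisors ℤ) H with hH'
  have hb' : b ≠ 0 := nonZeroDivisors.ne_zero hb0
  have heq : C b * R = P * H' := by
    apply Polynomial.map_injective (Int.castRingHom ℚ) Int.cast_injective
    rw [Polynomial.map_mul, Polynomial.map_mul, hH]
    have hb2 : H'.map (Int.castRingHom ℚ) = C (b : ℚ) * H := by
      have h1 : H'.map (Int.castRingHom ℚ) = H'.map (algebraMap ℤ ℚ) := rfl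
      rw [h1, hb, zsmul_eq_mul]
      simp
    rw [hb2, Polynomial.map_C]
    simp only [eq_intCast]
    ring
  refine ⟨b, hb', fun p hp hpb x hx => ?_⟩
  have h1 := congrArg (fun q : ℤ[X] => q.eval₂ (Int.castRingHom (ZMod p)) x) heq
  simp only [eval₂_mul, eval₂_C, hx, zero_mul] at h1
  have := Fact.mk hp
  rcases mul_eq_zero.1 h1 with h2 | h2
  · exact absurd h2 (cast_ne hpb)
  · rw [hR, eval₂_comp, eval₂_mul, eval₂_C, eval₂_X] at h2
    exact h2

theorem rho_le_card {P : ℤ[X]} (hP : Irreducible (P.map (Int.castRingHom ℚ))) {β : K}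
    (hβ : aeval β P = 0) (hK : Algebra.adjoin ℚ {β} = ⊤) :
    ∃ M : ℕ, M ≠ 0 ∧ ∀ p : ℕ, p.Prime → ¬ p ∣ M → rho P p ≤ (ids K p).card := by
  classical
  obtain ⟨α, hα⟩ := exists_int hβ
  obtain ⟨c, hc, hroot⟩ := root_transfer hP hβ hα
  have hP0 : P ≠ 0 := by
    rintro rfl
    simp at hP
  have ha : P.leadingCoeff ≠ 0 := leadingCoeff_ne_zero.2 hP0
  have haK : (P.leadingCoeff : K) ≠ 0 := by exact_mod_cast ha
  have hS : Algebra.adjoin ℚ (algebraMap (𝓞 K) K '' {α}) = ⊤ := by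
    rw [eq_top_iff, ← hK]
    apply Algebra.adjoin_le
    intro x hx
    rw [Set.mem_singleton_iff] at hx
    rw [hx, Set.image_singleton, hα]
    have h1 : (P.leadingCoeff : K) * β ∈ Algebra.adjoin ℚ {(P.leadingCoeff : K) * β} :=
      Algebra.subset_adjoin rfl
    have h2 := Subalgebra.smul_mem _ h1 ((P.leadingCoeff : ℚ)⁻¹)
    rw [Algebra.smul_def] at h2
    have h3 : algebraMap ℚ K ((P.leadingCoeff : ℚ)⁻¹) * ((P.leadingCoeff : K) * β) = β := by
      rw [map_inv₀, map_intCast, inv_mul_cancel_left₀ haK]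
    rw [h3] at h2
    exact h2
  obtain ⟨m, hm0, hm⟩ := exists_mul_mem {α} hS
  refine ⟨P.leadingCoeff.natAbs * m * c.natAbs, mul_ne_zero (mul_ne_zero (by simpa using hP0) hm0)
    (by simpa using hc), fun p hp hpM => ?_⟩
  have := Fact.mk hp
  have hpa : ¬ p ∣ P.leadingCoeff.natAbs := fun h => hpM (Dvd.dvd.mul_right (Dvd.dvd.mul_right h _) _)
  have hpm : ¬ p ∣ m := fun h => hpM (Dvd.dvd.mul_right (Dvd.dvd.mul_left h _) _)
  have hpc : ¬ p ∣ c.natAbs := fun h => hpM (Dvd.dvd.mul_left h _)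
  have h1 : ∀ x : {x : ZMod p // P.eval₂ (Int.castRingHom (ZMod p)) x = 0},
      ∃ φ : 𝓞 K →+* ZMod p, φ α = (P.leadingCoeff : ZMod p) * x.1 :=
    fun x => exists_hom_root hm hpm _ (hroot p hp hpc x.1 x.2)
  choose φ hφ using h1
  rw [rho, ← natCard_ids]
  apply Nat.card_le_card_of_injective (fun x => (⟨RingHom.ker (φ x), ker_mem (φ x)⟩ :
    {I : Ideal (𝓞 K) // I ∈ ids K p}))
  intro x y hxy
  have h2 : RingHom.ker (φ x) = RingHom.ker (φ y) := congrArg Subtype.val hxy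
  have h3 := ZMod.ringHom_eq_of_ker_eq _ _ h2
  apply Subtype.ext
  have h4 := hφ x
  rw [h3, hφ y] at h4
  exact (mul_left_cancel₀ (cast_ne hpa) h4).symm

theorem root_of_hom {P : ℤ[X]} {β : K} (hβ : aeval β P = 0) {α : 𝓞 K}
    (hα : algebraMap (𝓞 K) K α = (P.leadingCoeff : K) * β) {p : ℕ} [Fact p.Prime]
    (hpa : ¬ p ∣ P.leadingCoeff.natAbs) (φ : 𝓞 K →+* ZMod p) :
    P.eval₂ (Int.castRingHom (ZMod p)) ((P.leadingCoeff : ZMod p)⁻¹ * φ α) = 0 := by
  have ha0 := cast_ne (p := p) hpa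
  have h1 : aeval α (scaleRoots P P.leadingCoeff) = 0 := by
    apply FaithfulSMul.algebraMap_injective (𝓞 K) K
    rw [← aeval_algebraMap_apply, map_zero, hα]
    have h := scaleRoots_aeval_eq_zero (r := P.leadingCoeff) hβ
    rw [← h]
    simp
  have h2 : (scaleRoots P P.leadingCoeff).eval₂ (Int.castRingHom (ZMod p)) (φ α) = 0 := by
    have h3 := hom_eval₂ (scaleRoots P P.leadingCoeff) (algebraMap ℤ (𝓞 K)) φ α
    rw [← aeval_def, h1, map_zero] at h3
    rw [h3]
    congr 1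
    exact Subsingleton.elim _ _
  have h4 := scaleRoots_eval₂_mul (p := P) (Int.castRingHom (ZMod p))
    ((P.leadingCoeff : ZMod p)⁻¹ * φ α) P.leadingCoeff
  rw [eq_intCast, mul_inv_cancel_left₀ ha0, h2] at h4
  rcases mul_eq_zero.1 h4.symm with h5 | h5
  · exact absurd h5 (pow_ne_zero _ ha0)
  · exact h5

theorem card_le_rho {P : ℤ[X]} (hP0 : P ≠ 0) {β₁ β₂ : K} (h1 : aeval β₁ P = 0)
    (h2 : aeval β₂ P = 0) (h12 : β₁ ≠ β₂) (hK : Algebra.adjoin ℚ {β₁, β₂} = ⊤) :
    ∃ M : ℕ, M ≠ 0 ∧ ∀ p : ℕ, p.Prime → ¬ p ∣ M →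
      (ids K p).card ≤ rho P p * (rho P p - 1) := by
  classical
  obtain ⟨α₁, hα₁⟩ := exists_int h1
  obtain ⟨α₂, hα₂⟩ := exists_int h2
  have ha : P.leadingCoeff ≠ 0 := leadingCoeff_ne_zero.2 hP0
  have haK : (P.leadingCoeff : K) ≠ 0 := by exact_mod_cast ha
  have hS : Algebra.adjoin ℚ (algebraMap (𝓞 K) K '' {α₁, α₂}) = ⊤ := by
    rw [eq_top_iff, ← hK]
    apply Algebra.adjoin_le
    have key : ∀ β : K, (P.leadingCoeff : K) * β ∈
        Algebra.adjoin ℚ (algebraMap (𝓞 K) K '' {α₁, α₂}) →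
        β ∈ Algebra.adjoin ℚ (algebraMap (𝓞 K) K '' {α₁, α₂}) := by
      intro β hβ
      have h2 := Subalgebra.smul_mem _ hβ ((P.leadingCoeff : ℚ)⁻¹)
      rw [Algebra.smul_def] at h2
      have h3 : algebraMap ℚ K ((P.leadingCoeff : ℚ)⁻¹) * ((P.leadingCoeff : K) * β) = β := by
        rw [map_inv₀, map_intCast, inv_mul_cancel_left₀ haK]
      rw [h3] at h2
      exact h2
    rintro β (rfl | rfl)
    · apply key
      rw [← hα₁]
      exact Algebra.subset_adjoin ⟨α₁, by simp, rfl⟩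
    · apply key
      rw [← hα₂]
      exact Algebra.subset_adjoin ⟨α₂, by simp, rfl⟩
  obtain ⟨m, hm0, hm⟩ := exists_mul_mem {α₁, α₂} hS
  have hαne : α₁ - α₂ ≠ 0 := by
    intro h
    have h3 := congrArg (algebraMap (𝓞 K) K) h
    rw [map_sub, hα₁, hα₂, map_zero, ← mul_sub] at h3
    rcases mul_eq_zero.1 h3 with h4 | h4
    · exact haK h4
    · exact h12 (sub_eq_zero.1 h4)
  set n : ℕ := absNorm (Ideal.span {α₁ - α₂}) with hn
  have hn0 : n ≠ 0 := by
    rw [hn, Ne, absNorm_eq_zero_iff, Ideal.span_singleton_eq_bot]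
    exact hαne
  refine ⟨P.leadingCoeff.natAbs * m * n, mul_ne_zero (mul_ne_zero (by simpa using hP0) hm0)
    hn0, fun p hp hpM => ?_⟩
  have := Fact.mk hp
  have hpa : ¬ p ∣ P.leadingCoeff.natAbs := fun h => hpM (Dvd.dvd.mul_right (Dvd.dvd.mul_right h _) _)
  have hpm : ¬ p ∣ m := fun h => hpM (Dvd.dvd.mul_right (Dvd.dvd.mul_left h _) _)
  have hpn : ¬ p ∣ n := fun h => hpM (Dvd.dvd.mul_left h _)
  have ha0 := cast_ne (p := p) hpa
  let R := {x : ZMod p // P.eval₂ (Int.castRingHom (ZMod p)) x = 0}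
  have h3 : ∀ I : {I : Ideal (𝓞 K) // I ∈ ids K p}, ∃ φ : 𝓞 K →+* ZMod p, RingHom.ker φ = I.1 :=
    fun I => exists_hom I.2
  choose φ hφ using h3
  let F : {I : Ideal (𝓞 K) // I ∈ ids K p} → R × R := fun I =>
    (⟨(P.leadingCoeff : ZMod p)⁻¹ * φ I α₁, root_of_hom h1 hα₁ hpa (φ I)⟩,
     ⟨(P.leadingCoeff : ZMod p)⁻¹ * φ I α₂, root_of_hom h2 hα₂ hpa (φ I)⟩)
  have hcard : (ids K p).card ≤ ((univ : Finset R).offDiag).card := by
    rw [← Fintype.card_coe, ← Finset.card_univ]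
    apply card_le_card_of_injOn F
    · intro I _
      rw [mem_coe, mem_offDiag]
      refine ⟨mem_univ _, mem_univ _, ?_⟩
      intro h
      have h4 : (P.leadingCoeff : ZMod p)⁻¹ * φ I α₁ = (P.leadingCoeff : ZMod p)⁻¹ * φ I α₂ :=
        congrArg Subtype.val h
      have h5 := mul_left_cancel₀ (inv_ne_zero ha0) h4
      have h6 : α₁ - α₂ ∈ I.1 := by
        rw [← hφ I, RingHom.mem_ker, map_sub, h5, sub_self]
      apply hpn
      have h7 : I.1 ∣ Ideal.span {α₁ - α₂} := by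
        rw [Ideal.dvd_span_singleton]
        exact h6
      have h8 := map_dvd absNorm h7
      rwa [mem_ids.1 I.2] at h8
    · intro I _ J _ hIJ
      have h4 : (P.leadingCoeff : ZMod p)⁻¹ * φ I α₁ = (P.leadingCoeff : ZMod p)⁻¹ * φ J α₁ :=
        congrArg (fun z : R × R => z.1.1) hIJ
      have h5 : (P.leadingCoeff : ZMod p)⁻¹ * φ I α₂ = (P.leadingCoeff : ZMod p)⁻¹ * φ J α₂ :=
        congrArg (fun z : R × R => z.2.1) hIJ
      have h6 : φ I = φ J := by
        apply hom_ext hm hpm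
        rintro s (rfl | rfl)
        · exact mul_left_cancel₀ (inv_ne_zero ha0) h4
        · exact mul_left_cancel₀ (inv_ne_zero ha0) h5
      apply Subtype.ext
      rw [← hφ I, ← hφ J, h6]
  have hrho : rho P p = Fintype.card R := by
    rw [rho, Nat.card_eq_fintype_card]
  rw [offDiag_card, Finset.card_univ, ← hrho] at hcard
  rwa [Nat.mul_sub, mul_one]

theorem rho_le_deg {P : ℤ[X]} {p : ℕ} (hp : p.Prime) (hpa : ¬ p ∣ P.leadingCoeff.natAbs) :
    rho P p ≤ P.natDegree := by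
  classical
  have := Fact.mk hp
  have h0 : P.map (Int.castRingHom (ZMod p)) ≠ 0 := by
    intro h
    have h1 := congrArg (fun q : (ZMod p)[X] => q.coeff P.natDegree) h
    simp only [coeff_map, coeff_zero] at h1
    exact cast_ne hpa h1
  calc rho P p ≤ ((P.map (Int.castRingHom (ZMod p))).roots.toFinset).card := by
        rw [rho, ← Fintype.card_coe, ← Nat.card_eq_fintype_card]
        apply Nat.card_le_card_of_injective (fun x => (⟨x.1, by
          rw [Multiset.mem_toFinset, mem_roots h0, IsRoot.def, eval_map]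
          exact x.2⟩ : {y // y ∈ (P.map (Int.castRingHom (ZMod p))).roots.toFinset}))
        intro x y h
        have h' := congrArg Subtype.val h
        exact Subtype.ext h'
    _ ≤ Multiset.card (P.map (Int.castRingHom (ZMod p))).roots := Multiset.toFinset_card_le _
    _ ≤ (P.map (Int.castRingHom (ZMod p))).natDegree := card_roots' _
    _ ≤ P.natDegree := natDegree_map_le

end RhoM

end Pool.Agent.Lib.MP5b6025.RP
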