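import Pool.Agent.Lib.MP_5b6025_nt.RP.FieldSum

/-!
# Rootless primes: ideals of norm `p` and roots modulo `p`
-/

set_option autoImplicit false

open Finset NumberField Ideal Polynomial

namespace Pool.Agent.Lib.MP5b6025.RP

namespace RootsM

open FieldM

variable {K : Type*} [Field K] [NumberField K]

/-- denominators, elements of `K` -/
theorem den_aux (S : Set (𝓞 K)) (y : K)
    (hy : y ∈ Algebra.adjoin ℚ (algebraMap (𝓞 K) K '' S)) :
    ∃ m : ℕ, m ≠ 0 ∧ ∃ z ∈ Algebra.adjoin ℤ S, (m : K) * y = algebraMap (𝓞 K) K z := by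
  induction hy using Algebra.adjoin_induction with
  | mem x hx =>
    obtain ⟨s, hs, rfl⟩ := hx
    exact ⟨1, one_ne_zero, s, Algebra.subset_adjoin hs, by simp⟩
  | algebraMap r =>
    refine ⟨r.den, r.den_nz, (r.num : 𝓞 K), ?_, ?_⟩
    · exact intCast_mem _ _
    · have h := Rat.den_mul_eq_num r
      have h2 := congrArg (algebraMap ℚ K) h
      rw [map_mul, map_natCast, map_intCast] at h2
      rw [h2, map_intCast]
  | add x y _ _ hx hy =>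
    obtain ⟨m, hm, z, hz, h⟩ := hx
    obtain ⟨m', hm', z', hz', h'⟩ := hy
    refine ⟨m * m', mul_ne_zero hm hm', (m' : 𝓞 K) * z + (m : 𝓞 K) * z', ?_, ?_⟩
    · exact add_mem (mul_mem (natCast_mem _ _) hz) (mul_mem (natCast_mem _ _) hz')
    · rw [map_add, map_mul, map_mul, map_natCast, map_natCast, ← h, ← h']
      push_cast
      ring
  | mul x y _ _ hx hy =>
    obtain ⟨m, hm, z, hz, h⟩ := hx
    obtain ⟨m', hm', z', hz', h'⟩ := hy
    refine ⟨m * m', mul_ne_zero hm hm', z * z', mul_mem hz hz', ?_⟩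
    rw [map_mul, ← h, ← h']
    push_cast
    ring

theorem exists_mul_mem (S : Set (𝓞 K))
    (hS : Algebra.adjoin ℚ (algebraMap (𝓞 K) K '' S) = ⊤) :
    ∃ m : ℕ, m ≠ 0 ∧ ∀ x : 𝓞 K, (m : 𝓞 K) * x ∈ Algebra.adjoin ℤ S := by
  classical
  have h1 : ∀ x : 𝓞 K, ∃ m : ℕ, m ≠ 0 ∧ (m : 𝓞 K) * x ∈ Algebra.adjoin ℤ S := by
    intro x
    obtain ⟨m, hm, z, hz, h⟩ := den_aux S (algebraMap (𝓞 K) K x) (by rw [hS]; trivial)
    refine ⟨m, hm, ?_⟩
    have h2 : (m : 𝓞 K) * x = z := by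
      apply FaithfulSMul.algebraMap_injective (𝓞 K) K
      rw [map_mul, map_natCast]
      exact h
    rw [h2]
    exact hz
  choose m hm0 hm using h1
  obtain ⟨s, hs⟩ := (Module.Finite.fg_top : (⊤ : Submodule ℤ (𝓞 K)).FG)
  refine ⟨∏ x ∈ s, m x, prod_ne_zero_iff.2 (fun x _ => hm0 x), fun x => ?_⟩
  have hx : x ∈ Submodule.span ℤ (s : Set (𝓞 K)) := by rw [hs]; trivial
  induction hx using Submodule.span_induction with
  | mem x hx =>
    rw [← mul_prod_erase s m hx]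
    push_cast
    have h3 : (m x : 𝓞 K) * (∏ y ∈ s.erase x, (m y : 𝓞 K)) * x =
        (∏ y ∈ s.erase x, (m y : 𝓞 K)) * ((m x : 𝓞 K) * x) := by ring
    rw [h3]
    apply mul_mem _ (hm x)
    exact prod_mem (fun y _ => natCast_mem _ _)
  | zero => rw [mul_zero]; exact zero_mem _
  | add x y _ _ hx hy => rw [mul_add]; exact add_mem hx hy
  | smul a x _ hx =>
    rw [mul_smul_comm]
    exact Subalgebra.smul_mem _ hx a

theorem cast_ne_zero {p : ℕ} [Fact p.Prime] {m : ℕ} (h : ¬ p ∣ m) : (m : ZMod p) ≠ 0 := by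
  rwa [Ne, ZMod.natCast_eq_zero_iff]

theorem hom_ext {S : Set (𝓞 K)} {m : ℕ} (hm : ∀ x : 𝓞 K, (m : 𝓞 K) * x ∈ Algebra.adjoin ℤ S)
    {p : ℕ} [Fact p.Prime] (hpm : ¬ p ∣ m) {φ ψ : 𝓞 K →+* ZMod p}
    (h : ∀ s ∈ S, φ s = ψ s) : φ = ψ := by
  have h1 : ∀ z ∈ Algebra.adjoin ℤ S, φ z = ψ z := by
    intro z hz
    induction hz using Algebra.adjoin_induction with
    | mem x hx => exact h x hx
    | algebraMap r => simp
    | add x y _ _ hx hy => rw [map_add, map_add, hx, hy]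
    | mul x y _ _ hx hy => rw [map_mul, map_mul, hx, hy]
  ext x
  have h2 := h1 _ (hm x)
  rw [map_mul, map_mul, map_natCast, map_natCast] at h2
  exact mul_left_cancel₀ (cast_ne_zero hpm) h2

theorem ker_mem {p : ℕ} [Fact p.Prime] (φ : 𝓞 K →+* ZMod p) : RingHom.ker φ ∈ ids K p := by
  rw [mem_ids]
  show Nat.card (𝓞 K ⧸ RingHom.ker φ) = p
  rw [Nat.card_congr (RingHom.quotientKerEquivOfSurjective (ZMod.ringHom_surjective φ)).toEquiv,
    Nat.card_zmod]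

theorem exists_hom {p : ℕ} [Fact p.Prime] {I : Ideal (𝓞 K)} (hI : I ∈ ids K p) :
    ∃ φ : 𝓞 K →+* ZMod p, RingHom.ker φ = I := by
  have hp : p.Prime := Fact.out
  rw [mem_ids] at hI
  have h1 : Nat.card (𝓞 K ⧸ I) = p := hI
  have hfin : Finite (𝓞 K ⧸ I) := Nat.finite_of_card_ne_zero (by rw [h1]; exact hp.ne_zero)
  have := Fintype.ofFinite (𝓞 K ⧸ I)
  rw [Nat.card_eq_fintype_card] at h1
  refine ⟨((ZMod.ringEquivOfPrime (𝓞 K ⧸ I) hp h1).symm : 𝓞 K ⧸ I →+* ZMod p).comp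
    (Ideal.Quotient.mk I), ?_⟩
  ext x
  rw [RingHom.mem_ker, RingHom.comp_apply]
  simp [Ideal.Quotient.eq_zero_iff_mem]

theorem exists_extension {S : Set (𝓞 K)} {m : ℕ}
    (hm : ∀ x : 𝓞 K, (m : 𝓞 K) * x ∈ Algebra.adjoin ℤ S)
    {p : ℕ} [Fact p.Prime] (hpm : ¬ p ∣ m) (ψ : Algebra.adjoin ℤ S →+* ZMod p) :
    ∃ φ : 𝓞 K →+* ZMod p, ∀ (z : 𝓞 K) (hz : z ∈ Algebra.adjoin ℤ S), φ z = ψ ⟨z, hz⟩ := by
  have hm0 := cast_ne_zero (p := p) hpm
  have key : ∀ (a : ℕ) (z : 𝓞 K) (hz : z ∈ Algebra.adjoin ℤ S)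
      (h : (a : 𝓞 K) * z ∈ Algebra.adjoin ℤ S), ψ ⟨(a : 𝓞 K) * z, h⟩ = (a : ZMod p) * ψ ⟨z, hz⟩ := by
    intro a z hz h
    rw [← map_natCast ψ a, ← map_mul]
    congr 1
  refine ⟨{ toFun := fun x => (m : ZMod p)⁻¹ * ψ ⟨(m : 𝓞 K) * x, hm x⟩
            map_one' := ?_
            map_mul' := ?_
            map_zero' := ?_
            map_add' := ?_ }, ?_⟩
  · rw [key m 1 (one_mem _)]
    have : (⟨1, one_mem _⟩ : Algebra.adjoin ℤ S) = 1 := rfl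
    rw [this, map_one, mul_one, inv_mul_cancel₀ hm0]
  · intro x y
    have h1 : ψ ⟨(m : 𝓞 K) * x, hm x⟩ * ψ ⟨(m : 𝓞 K) * y, hm y⟩ =
        (m : ZMod p) * ψ ⟨(m : 𝓞 K) * (x * y), hm (x * y)⟩ := by
      rw [← map_mul, ← map_natCast ψ m, ← map_mul]
      congr 1
      apply Subtype.ext
      show (m : 𝓞 K) * x * ((m : 𝓞 K) * y) = (m : 𝓞 K) * ((m : 𝓞 K) * (x * y))
      ring
    have h2 : ψ ⟨(m : 𝓞 K) * (x * y), hm (x * y)⟩ = (m : ZMod p)⁻¹ *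
        (ψ ⟨(m : 𝓞 K) * x, hm x⟩ * ψ ⟨(m : 𝓞 K) * y, hm y⟩) := by
      rw [h1, inv_mul_cancel_left₀ hm0]
    rw [h2]
    ring
  · have : (⟨(m : 𝓞 K) * 0, hm 0⟩ : Algebra.adjoin ℤ S) = 0 := by
      apply Subtype.ext
      show (m : 𝓞 K) * 0 = 0
      ring
    rw [this, map_zero, mul_zero]
  · intro x y
    rw [← mul_add, ← map_add]
    congr 2
    apply Subtype.ext
    show (m : 𝓞 K) * (x + y) = (m : 𝓞 K) * x + (m : 𝓞 K) * y
    ring
  · intro z hz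
    show (m : ZMod p)⁻¹ * ψ ⟨(m : 𝓞 K) * z, hm z⟩ = ψ ⟨z, hz⟩
    rw [key m z hz, inv_mul_cancel_left₀ hm0]

/-- a root of the minimal polynomial of `α` modulo `p` is the value of a homomorphism -/
theorem exists_hom_root {α : 𝓞 K} {m : ℕ}
    (hm : ∀ x : 𝓞 K, (m : 𝓞 K) * x ∈ Algebra.adjoin ℤ {α})
    {p : ℕ} [Fact p.Prime] (hpm : ¬ p ∣ m) (y : ZMod p)
    (hy : (minpoly ℤ α).eval₂ (Int.castRingHom (ZMod p)) y = 0) :
    ∃ φ : 𝓞 K →+* ZMod p, φ α = y := by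
  have hint : IsIntegral ℤ α := RingOfIntegers.isIntegral α
  let pb := Algebra.adjoin.powerBasis' hint
  have hgen : minpoly ℤ pb.gen = minpoly ℤ α := (Algebra.adjoin.powerBasis'_minpoly_gen hint).symm
  have hy' : aeval y (minpoly ℤ pb.gen) = 0 := by
    rw [hgen, aeval_def]
    exact hy
  let ψ := pb.lift y hy'
  obtain ⟨φ, hφ⟩ := exists_extension hm hpm (ψ : Algebra.adjoin ℤ {α} →+* ZMod p)
  refine ⟨φ, ?_⟩
  rw [hφ α (Algebra.subset_adjoin rfl)]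
  have h1 := pb.lift_gen y hy'
  have h2 : pb.gen = ⟨α, Algebra.subset_adjoin rfl⟩ := Algebra.adjoin.powerBasis'_gen hint
  rw [h2] at h1
  exact h1

end RootsM

end Pool.Agent.Lib.MP5b6025.RP
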